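import Pool.Agent.Helper37.SN.Stmts

set_option autoImplicit false

namespace Pool.Agent.Helper37.SN

open MeasureTheory Finset
open scoped ENNReal Classical

namespace AvgAux

instance : IsProbabilityMeasure haar1 := by unfold haar1; infer_instance

instance (d : ℕ) : IsProbabilityMeasure (haar d) := by unfold haar; infer_instance

lemma env_pos (σ : ℕ) (t : UnitAddCircle) : 0 < env σ t := by
  unfold env; positivity

lemma char_cont {d : ℕ} (k : Fin d → ℤ) :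
    Continuous (fun x : TT d => ∏ j, (fourier (-(k j)) (x j) : ℂ)) := by
  refine continuous_finsetProd _ (fun j _ => ?_)
  exact (fourier (-(k j))).continuous.comp (continuous_apply j)

lemma mc_lin {d : ℕ} (G : Finset ℕ) (f : ℕ → TT d → ℝ) (hf : ∀ s ∈ G, Continuous (f s)) (c : ℝ)
    (k : Fin d → ℤ) : mc (fun x => c * ∑ s ∈ G, f s x) k = (c : ℂ) * ∑ s ∈ G, mc (f s) k := by
  unfold mc
  rw [← integral_finsetSum, ← integral_const_mul]
  · refine integral_congr_ae (Filter.Eventually.of_forall ?_)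
    intro x
    simp only [Complex.ofReal_mul, Complex.ofReal_sum, Finset.mul_sum]
    refine Finset.sum_congr rfl fun s _ => by ring
  · intro s hs
    refine Continuous.integrable_of_hasCompactSupport ?_ (HasCompactSupport.of_compactSpace _)
    exact (char_cont k).mul (Complex.continuous_ofReal.comp (hf s hs))

lemma adm_nonneg {k : ℕ} {a : ℝ} {W : ℝ → ℝ} (h : Adm k a W) : 0 ≤ a :=
  (abs_nonneg _).trans (h.2.2 0 (Nat.zero_le _) 0)

lemma adm_zero {k : ℕ} {a : ℝ} {W : ℝ → ℝ} (h : Adm k a W) : Adm 0 a W := by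
  refine ⟨h.1.of_le (by exact_mod_cast Nat.zero_le k), h.2.1, fun i hi y => ?_⟩
  exact h.2.2 i (by omega) y

end AvgAux

open AvgAux

theorem st_AVG (hFRB : ST_FRB) (hTEN : ST_TEN) (hOVL : ST_OVL) (hLQ : ST_LQ) (hBMP : ST_BMP) :
    ST_AVG := by
  intro r p q hp hp2 hq hr
  have hp0 : 0 < p := by linarith
  have hr0 : 0 < r := lt_trans (by positivity) hr
  obtain ⟨CF, hCF, hF⟩ := hFRB r hr0
  obtain ⟨CO, hCO, hO⟩ := hOVL p hp hp2
  obtain ⟨CL, hCL, hL⟩ := hLQ q (by linarith)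
  refine ⟨CF ^ 2 * CO ^ (1 / p) + CL, by positivity, ?_⟩
  intro e n ρ a₁ a₂ W₁ W₂ G x₁ x₂ hW₁ hW₂ hGne hG
  have ha₁ := adm_nonneg hW₁
  have ha₂ := adm_nonneg hW₂
  have hcard : 0 < (G.card : ℝ) := by exact_mod_cast hGne.card_pos
  have hc1 : Continuous W₁ := hW₁.1.continuous
  have hc2 : Continuous W₂ := hW₂.1.continuous
  -- the functions
  have hex : ∀ s : ℕ, ∃ φ ψ : UnitAddCircle → ℝ, s ∈ G → (Continuous φ ∧ Continuous ψ ∧
      (∀ n : ℤ, fc1 (bmp W₁ (s + ρ) x₁) n = mult r n * fc1 φ n) ∧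
      (∀ m : ℤ, fc1 (bmp W₂ (n - s + ρ) x₂) m = mult r m * fc1 ψ m) ∧
      (∀ t, |φ t| ≤ CF * a₁ * (2 : ℝ) ^ (r * ((s + ρ : ℕ) : ℝ)) * env (s + ρ) (t - x₁)) ∧
      (∀ t, |ψ t| ≤ CF * a₂ * (2 : ℝ) ^ (r * ((n - s + ρ : ℕ) : ℝ)) *
        env (n - s + ρ) (t - x₂))) := by
    intro s
    by_cases hs : s ∈ G
    · obtain ⟨φ, h1, h2, h3⟩ := hF a₁ W₁ hW₁ (s + ρ) x₁ (hG s hs).2.1
      obtain ⟨ψ, h4, h5, h6⟩ := hF a₂ W₂ hW₂ (n - s + ρ) x₂ (hG s hs).2.2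
      exact ⟨φ, ψ, fun _ => ⟨h1, h4, h2, h5, h3, h6⟩⟩
    · exact ⟨fun _ => 0, fun _ => 0, fun h => absurd h hs⟩
  choose φ ψ hφψ using hex
  have cb1 : ∀ s ∈ G, Continuous (bmp W₁ (s + ρ) x₁) := fun s hs =>
    (hBMP W₁ (s + ρ) x₁ (hG s hs).2.1 hc1 hW₁.2.1).1
  have cb2 : ∀ s ∈ G, Continuous (bmp W₂ (n - s + ρ) x₂) := fun s hs =>
    (hBMP W₂ (n - s + ρ) x₂ (hG s hs).2.2 hc2 hW₂.2.1).1
  have cT : ∀ (u v : UnitAddCircle → ℝ), Continuous u → Continuous v →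
      Continuous (ten u v : TT (e + 2) → ℝ) := by
    intro u v hu hv
    unfold ten
    exact (hu.comp (continuous_apply 0)).mul (hv.comp (continuous_apply 1))
  have hFeq : (fun x : TT (e + 2) => (G.card : ℝ)⁻¹ *
      ∑ s ∈ G, bmp W₁ (s + ρ) x₁ (x 0) * bmp W₂ (n - s + ρ) x₂ (x 1)) =
      fun x : TT (e + 2) => (G.card : ℝ)⁻¹ * ∑ s ∈ G,
        (ten (bmp W₁ (s + ρ) x₁) (bmp W₂ (n - s + ρ) x₂) : TT (e + 2) → ℝ) x := rfl
  rw [hFeq]
  have cF : ∀ s ∈ G, Continuous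
      (ten (bmp W₁ (s + ρ) x₁) (bmp W₂ (n - s + ρ) x₂) : TT (e + 2) → ℝ) :=
    fun s hs => cT _ _ (cb1 s hs) (cb2 s hs)
  have cP : ∀ s ∈ G, Continuous (ten (φ s) (ψ s) : TT (e + 2) → ℝ) :=
    fun s hs => cT _ _ (hφψ s hs).1 (hφψ s hs).2.1
  have hexp : ∀ s ∈ G, ((s + ρ : ℕ) : ℝ) + ((n - s + ρ : ℕ) : ℝ) = (n : ℝ) + 2 * ρ := by
    intro s hs
    have h1 := (hG s hs).1
    have c1 : (((n - s : ℕ) : ℝ)) = (n : ℝ) - s := by push_cast [Nat.cast_sub h1]; ring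
    push_cast
    rw [c1]
    ring
  refine ⟨?_, ⟨fun x => (G.card : ℝ)⁻¹ * ∑ s ∈ G, (ten (φ s) (ψ s) : TT (e + 2) → ℝ) x,
    ?_, ?_, ?_⟩, ?_⟩
  · exact continuous_const.mul (continuous_finsetSum _ cF)
  · exact continuous_const.mul (continuous_finsetSum _ cP)
  · intro k
    rw [mc_lin G (fun s => ten (bmp W₁ (s + ρ) x₁) (bmp W₂ (n - s + ρ) x₂)) cF,
      mc_lin G (fun s => ten (φ s) (ψ s)) cP]
    rw [mul_left_comm]
    congr 1
    rw [Finset.mul_sum]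
    refine Finset.sum_congr rfl ?_
    intro s hs
    obtain ⟨h1, h2, h3, h4, -, -⟩ := hφψ s hs
    exact hTEN e r _ _ _ _ (cb1 s hs) (cb2 s hs) h1 h2 h3 h4 k
  · -- the L_p bound
    set K : ℝ := (G.card : ℝ)⁻¹ * (CF ^ 2 * a₁ * a₂ * (2 : ℝ) ^ (r * ((n : ℝ) + 2 * ρ))) with hK
    have hK0 : 0 ≤ K := by positivity
    have hE0 : ∀ x : TT (e + 2), 0 ≤ ∑ s ∈ G, env (s + ρ) (x 0 - x₁) * env (n - s + ρ) (x 1 - x₂) :=
      fun x => Finset.sum_nonneg fun s _ => (mul_pos (env_pos _ _) (env_pos _ _)).le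
    have hpt : ∀ x : TT (e + 2), |(G.card : ℝ)⁻¹ * ∑ s ∈ G, (ten (φ s) (ψ s) : TT (e + 2) → ℝ) x| ≤
        K * ∑ s ∈ G, env (s + ρ) (x 0 - x₁) * env (n - s + ρ) (x 1 - x₂) := by
      intro x
      rw [abs_mul, abs_of_nonneg (by positivity : (0 : ℝ) ≤ (G.card : ℝ)⁻¹), hK, mul_assoc]
      refine mul_le_mul_of_nonneg_left ?_ (by positivity)
      refine (Finset.abs_sum_le_sum_abs _ _).trans ?_
      rw [Finset.mul_sum]
      refine Finset.sum_le_sum ?_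
      intro s hs
      obtain ⟨-, -, -, -, h5, h6⟩ := hφψ s hs
      have e1 := (env_pos (s + ρ) (x 0 - x₁)).le
      have e2 := (env_pos (n - s + ρ) (x 1 - x₂)).le
      show |φ s (x 0) * ψ s (x 1)| ≤ _
      rw [abs_mul]
      refine (mul_le_mul (h5 (x 0)) (h6 (x 1)) (abs_nonneg _) (by positivity)).trans (le_of_eq ?_)
      rw [← hexp s hs, mul_add, Real.rpow_add (by norm_num)]
      ring
    have hpne : ENNReal.ofReal p ≠ 0 := by
      rw [Ne, ENNReal.ofReal_eq_zero]; linarith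
    rw [eLpNorm_eq_lintegral_rpow_enorm_toReal hpne ENNReal.ofReal_ne_top, ENNReal.toReal_ofReal hp0.le]
    have hint : ∫⁻ x : TT (e + 2), ‖(G.card : ℝ)⁻¹ * ∑ s ∈ G, (ten (φ s) (ψ s) : TT (e + 2) → ℝ) x‖ₑ ^ p
        ∂haar (e + 2) ≤ ENNReal.ofReal (K ^ p * (CO * G.card * (2 : ℝ) ^ (-((n : ℝ) + 2 * ρ)))) := by
      rw [ENNReal.ofReal_mul (by positivity)]
      refine le_trans ?_ (mul_le_mul_right (hO e n ρ G x₁ x₂ (fun s hs => (hG s hs).1))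
        (ENNReal.ofReal (K ^ p)))
      rw [← lintegral_const_mul' _ _ ENNReal.ofReal_ne_top]
      refine lintegral_mono ?_
      intro x
      show ‖(G.card : ℝ)⁻¹ * ∑ s ∈ G, (ten (φ s) (ψ s) : TT (e + 2) → ℝ) x‖ₑ ^ p ≤
        ENNReal.ofReal (K ^ p) * ENNReal.ofReal
          ((∑ s ∈ G, env (s + ρ) (x 0 - x₁) * env (n - s + ρ) (x 1 - x₂)) ^ p)
      rw [← ENNReal.ofReal_mul (by positivity), ← Real.mul_rpow hK0 (hE0 x),
        ← ENNReal.ofReal_rpow_of_nonneg (mul_nonneg hK0 (hE0 x)) hp0.le]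
      refine ENNReal.rpow_le_rpow ?_ hp0.le
      rw [Real.enorm_eq_ofReal_abs]
      exact ENNReal.ofReal_le_ofReal (hpt x)
    refine (ENNReal.rpow_le_rpow hint (by positivity)).trans ?_
    rw [ENNReal.ofReal_rpow_of_nonneg (by positivity) (by positivity)]
    refine ENNReal.ofReal_le_ofReal ?_
    have e1 : (K ^ p * (CO * G.card * (2 : ℝ) ^ (-((n : ℝ) + 2 * ρ)))) ^ (1 / p) =
        CF ^ 2 * CO ^ (1 / p) * a₁ * a₂ * (G.card : ℝ) ^ (-(1 - 1 / p)) *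
          (2 : ℝ) ^ ((r - 1 / p) * ((n : ℝ) + 2 * ρ)) := by
      rw [Real.mul_rpow (by positivity) (by positivity), ← Real.rpow_mul hK0,
        mul_one_div_cancel hp0.ne', Real.rpow_one, Real.mul_rpow (by positivity) (by positivity),
        Real.mul_rpow (by positivity) (by positivity), ← Real.rpow_mul (by norm_num), hK]
      have f1 : (G.card : ℝ) ^ (-(1 - 1 / p)) = (G.card : ℝ)⁻¹ * (G.card : ℝ) ^ (1 / p) := by
        rw [← Real.rpow_neg_one, ← Real.rpow_add hcard]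
        congr 1
        ring
      have f2 : (2 : ℝ) ^ ((r - 1 / p) * ((n : ℝ) + 2 * ρ)) =
          (2 : ℝ) ^ (r * ((n : ℝ) + 2 * ρ)) * (2 : ℝ) ^ (-((n : ℝ) + 2 * ρ) * (1 / p)) := by
        rw [← Real.rpow_add (by norm_num)]
        congr 1
        ring
      rw [f1, f2]
      ring
    rw [e1]
    have h3 : 0 ≤ (G.card : ℝ) ^ (-(1 - 1 / p)) := by positivity
    have h4 : 0 ≤ (2 : ℝ) ^ ((r - 1 / p) * ((n : ℝ) + 2 * ρ)) := by positivity
    have h5 : CF ^ 2 * CO ^ (1 / p) ≤ CF ^ 2 * CO ^ (1 / p) + CL := by linarith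
    gcongr
  · -- the L_q bound
    have hq1 : (1 : ℝ≥0∞) ≤ ENNReal.ofReal q := by
      rw [ENNReal.one_le_ofReal]; linarith
    have e0 : (fun x : TT (e + 2) => (G.card : ℝ)⁻¹ * ∑ s ∈ G,
        (ten (bmp W₁ (s + ρ) x₁) (bmp W₂ (n - s + ρ) x₂) : TT (e + 2) → ℝ) x) =
        (G.card : ℝ)⁻¹ • ∑ s ∈ G,
          (ten (bmp W₁ (s + ρ) x₁) (bmp W₂ (n - s + ρ) x₂) : TT (e + 2) → ℝ) := by
      funext x
      simp only [Pi.smul_apply, Finset.sum_apply, smul_eq_mul]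
    rw [e0, eLpNorm_const_smul]
    have h1 : eLpNorm (∑ s ∈ G,
          (ten (bmp W₁ (s + ρ) x₁) (bmp W₂ (n - s + ρ) x₂) : TT (e + 2) → ℝ)) (ENNReal.ofReal q)
          (haar (e + 2)) ≤ ∑ s ∈ G, ENNReal.ofReal
            (CL * a₁ * a₂ * (2 : ℝ) ^ (-(((n : ℝ) + 2 * ρ) / q))) := by
      refine (eLpNorm_sum_le (fun s hs => (cF s hs).aestronglyMeasurable) hq1).trans ?_
      refine Finset.sum_le_sum ?_
      intro s hs
      have h2 := hL e a₁ a₂ W₁ W₂ (s + ρ) (n - s + ρ) x₁ x₂ (adm_zero hW₁) (adm_zero hW₂)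
        (hG s hs).2.1 (hG s hs).2.2
      rw [hexp s hs] at h2
      exact h2
    refine (mul_le_mul_right h1 _).trans ?_
    rw [Finset.sum_const, nsmul_eq_mul, Real.enorm_eq_ofReal_abs,
      abs_of_nonneg (by positivity : (0 : ℝ) ≤ (G.card : ℝ)⁻¹), ← ENNReal.ofReal_natCast,
      ← ENNReal.ofReal_mul (by positivity), ← ENNReal.ofReal_mul (by positivity)]
    refine ENNReal.ofReal_le_ofReal ?_
    rw [← mul_assoc, inv_mul_cancel₀ hcard.ne', one_mul]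
    have h4 : 0 ≤ (2 : ℝ) ^ (-(((n : ℝ) + 2 * ρ) / q)) := by positivity
    have h5 : CL ≤ CF ^ 2 * CO ^ (1 / p) + CL := by
      have : 0 ≤ CF ^ 2 * CO ^ (1 / p) := by positivity
      linarith
    gcongr

end Pool.Agent.Helper37.SN
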