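import Pool.Agent.Helper37.SN.Stmts

set_option autoImplicit false

namespace Pool.Agent.Helper37.SN

open MeasureTheory Finset
open scoped ENNReal Classical

namespace OvlAux

instance : (haar1).IsAddRightInvariant := by unfold haar1; infer_instance

lemma env_pos (σ : ℕ) (t : UnitAddCircle) : 0 < env σ t := by
  unfold env; positivity

lemma env_cont (σ : ℕ) : Continuous (env σ) := by
  unfold env
  refine Continuous.div continuous_const (by fun_prop) ?_
  intro t; positivity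

lemma rpow_sum_le (S : Finset ℕ) (f : ℕ → ℝ) (hf : ∀ i ∈ S, 0 ≤ f i) (θ : ℝ) (h0 : 0 < θ)
    (h1 : θ ≤ 1) : (∑ i ∈ S, f i) ^ θ ≤ ∑ i ∈ S, f i ^ θ := by
  induction S using Finset.induction_on with
  | empty => simp [Real.zero_rpow h0.ne']
  | insert a S ha ih =>
    rw [Finset.sum_insert ha, Finset.sum_insert ha]
    have h2 := ih (fun i hi => hf i (Finset.mem_insert_of_mem hi))
    have h3 : 0 ≤ f a := hf a (Finset.mem_insert_self a S)
    have h4 : 0 ≤ ∑ i ∈ S, f i :=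
      Finset.sum_nonneg (fun i hi => hf i (Finset.mem_insert_of_mem hi))
    exact (Real.rpow_add_le_add_rpow h3 h4 h0.le h1).trans (by linarith)

lemma pw (S : Finset ℕ) (f : ℕ → ℝ) (hf : ∀ i ∈ S, 0 ≤ f i) (p : ℝ) (h1 : 1 < p) (h2 : p < 2) :
    (∑ i ∈ S, f i) ^ p ≤ ∑ i ∈ S, ∑ k ∈ S, f i * f k ^ (p - 1) := by
  have h4 : 0 ≤ ∑ i ∈ S, f i := Finset.sum_nonneg hf
  have e : (∑ i ∈ S, f i) ^ p = (∑ i ∈ S, f i) * (∑ i ∈ S, f i) ^ (p - 1) := by
    conv_lhs => rw [show p = 1 + (p - 1) by ring]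
    rw [Real.rpow_add' h4 (by linarith), Real.rpow_one]
  rw [e]
  calc _ ≤ (∑ i ∈ S, f i) * ∑ k ∈ S, f k ^ (p - 1) := by
        exact mul_le_mul_of_nonneg_left (rpow_sum_le S f hf _ (by linarith) (by linarith)) h4
    _ = _ := by rw [Finset.sum_mul_sum]

lemma int_term (hP : ST_PROJ) (e : ℕ) (θ : ℝ) (α α' β β' : ℕ) (x₁ x₂ : UnitAddCircle) :
    ∫⁻ x : TT (e + 2), ENNReal.ofReal ((env α (x 0 - x₁) * env β (x 1 - x₂)) *
      (env α' (x 0 - x₁) * env β' (x 1 - x₂)) ^ θ) ∂haar (e + 2) =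
    (∫⁻ t, ENNReal.ofReal (env α t * env α' t ^ θ) ∂haar1) *
      (∫⁻ t, ENNReal.ofReal (env β t * env β' t ^ θ) ∂haar1) := by
  have hm : ∀ a b : ℕ, Measurable (fun t : UnitAddCircle =>
      ENNReal.ofReal (env a t * env b t ^ θ)) := by
    intro a b
    exact ENNReal.measurable_ofReal.comp
      ((env_cont a).measurable.mul ((env_cont b).measurable.pow_const θ))
  have e1 : ∀ x : TT (e + 2), ENNReal.ofReal ((env α (x 0 - x₁) * env β (x 1 - x₂)) *
      (env α' (x 0 - x₁) * env β' (x 1 - x₂)) ^ θ) =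
      (fun s t : UnitAddCircle => ENNReal.ofReal (env α (s - x₁) * env α' (s - x₁) ^ θ) *
        ENNReal.ofReal (env β (t - x₂) * env β' (t - x₂) ^ θ)) (x 0) (x 1) := by
    intro x
    have h1 := (env_pos α (x 0 - x₁)).le
    have h2 := (env_pos β (x 1 - x₂)).le
    have h3 := (env_pos α' (x 0 - x₁)).le
    have h4 := (env_pos β' (x 1 - x₂)).le
    show _ = ENNReal.ofReal (env α (x 0 - x₁) * env α' (x 0 - x₁) ^ θ) *
        ENNReal.ofReal (env β (x 1 - x₂) * env β' (x 1 - x₂) ^ θ)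
    rw [← ENNReal.ofReal_mul (by positivity), Real.mul_rpow h3 h4]
    congr 1
    ring
  have e3 := hP e (fun s t : UnitAddCircle => ENNReal.ofReal (env α (s - x₁) * env α' (s - x₁) ^ θ) *
        ENNReal.ofReal (env β (t - x₂) * env β' (t - x₂) ^ θ))
    (Measurable.mul ((hm α α').comp (measurable_fst.sub_const x₁))
      ((hm β β').comp (measurable_snd.sub_const x₂)))
  refine (lintegral_congr e1).trans (e3.trans ?_)
  · have e2 : ∀ s : UnitAddCircle,
        ∫⁻ t, ENNReal.ofReal (env α (s - x₁) * env α' (s - x₁) ^ θ) *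
          ENNReal.ofReal (env β (t - x₂) * env β' (t - x₂) ^ θ) ∂haar1 =
        ENNReal.ofReal (env α (s - x₁) * env α' (s - x₁) ^ θ) *
          ∫⁻ t, ENNReal.ofReal (env β t * env β' t ^ θ) ∂haar1 := by
      intro s
      have hm2 : Measurable (fun t : UnitAddCircle =>
          ENNReal.ofReal (env β (t - x₂) * env β' (t - x₂) ^ θ)) :=
        (hm β β').comp (measurable_id.sub_const x₂)
      rw [lintegral_const_mul _ hm2]
      congr 1
      exact lintegral_sub_right_eq_self (μ := haar1)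
        (fun t => ENNReal.ofReal (env β t * env β' t ^ θ)) x₂
    show ∫⁻ s, ∫⁻ t, ENNReal.ofReal (env α (s - x₁) * env α' (s - x₁) ^ θ) *
          ENNReal.ofReal (env β (t - x₂) * env β' (t - x₂) ^ θ) ∂haar1 ∂haar1 = _
    have hm1 : Measurable (fun t : UnitAddCircle =>
          ENNReal.ofReal (env α (t - x₁) * env α' (t - x₁) ^ θ)) :=
        (hm α α').comp (measurable_id.sub_const x₁)
    rw [lintegral_congr e2, lintegral_mul_const _ hm1]
    congr 1
    exact lintegral_sub_right_eq_self (μ := haar1)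
        (fun t => ENNReal.ofReal (env α t * env α' t ^ θ)) x₁

/-- the weight -/
noncomputable def vv (p : ℝ) (D : ℕ) : ℝ := (1 + (D : ℝ)) * ((2 : ℝ) ^ (-(p - 1))) ^ D

lemma vv_nonneg (p : ℝ) (D : ℕ) : 0 ≤ vv p D := by unfold vv; positivity

lemma vv_summable (p : ℝ) (hp : 1 < p) : Summable (vv p) := by
  have h0 : 0 < (2 : ℝ) ^ (-(p - 1)) := by positivity
  have h1 : (2 : ℝ) ^ (-(p - 1)) < 1 := Real.rpow_lt_one_of_one_lt_of_neg (by norm_num) (by linarith)
  have a := summable_geometric_of_lt_one h0.le h1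
  have b := summable_pow_mul_geometric_of_norm_lt_one 1 (r := (2 : ℝ) ^ (-(p - 1)))
    (by rw [Real.norm_of_nonneg h0.le]; exact h1)
  refine (a.add b).congr ?_
  intro D
  simp only [vv, pow_one]
  ring

lemma vv_sum (p : ℝ) (hp : 1 < p) (G : Finset ℕ) (s : ℕ) :
    ∑ k ∈ G, vv p ((s - k) + (k - s)) ≤ 2 * ∑' D, vv p D := by
  have hs := vv_summable p hp
  rw [← Finset.sum_filter_add_sum_filter_not G (fun k => k ≤ s), two_mul]
  refine add_le_add ?_ ?_
  · have e : ∑ k ∈ G.filter (fun k => k ≤ s), vv p ((s - k) + (k - s)) =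
        ∑ D ∈ (G.filter (fun k => k ≤ s)).image (fun k => s - k), vv p D := by
      rw [Finset.sum_image]
      · refine Finset.sum_congr rfl ?_
        intro k hk
        have : k ≤ s := (Finset.mem_filter.mp hk).2
        rw [show (s - k) + (k - s) = s - k by omega]
      · intro a ha b hb hab
        have h1 : a ≤ s := (Finset.mem_filter.mp (Finset.mem_coe.mp ha)).2
        have h2 : b ≤ s := (Finset.mem_filter.mp (Finset.mem_coe.mp hb)).2
        simp only at hab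
        omega
    rw [e]
    exact hs.sum_le_tsum _ (fun i _ => vv_nonneg p i)
  · have e : ∑ k ∈ G.filter (fun k => ¬ k ≤ s), vv p ((s - k) + (k - s)) =
        ∑ D ∈ (G.filter (fun k => ¬ k ≤ s)).image (fun k => k - s), vv p D := by
      rw [Finset.sum_image]
      · refine Finset.sum_congr rfl ?_
        intro k hk
        have : ¬ k ≤ s := (Finset.mem_filter.mp hk).2
        rw [show (s - k) + (k - s) = k - s by omega]
      · intro a ha b hb hab
        have h1 : ¬ a ≤ s := (Finset.mem_filter.mp (Finset.mem_coe.mp ha)).2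
        have h2 : ¬ b ≤ s := (Finset.mem_filter.mp (Finset.mem_coe.mp hb)).2
        simp only at hab
        omega
    rw [e]
    exact hs.sum_le_tsum _ (fun i _ => vv_nonneg p i)

lemma pair_bound (p : ℝ) (C : ℝ) (hC : 0 < C)
    (hI : ∀ σ σ' : ℕ,
      (σ ≤ σ' → ∫⁻ t, ENNReal.ofReal (env σ t * env σ' t ^ (p - 1)) ∂haar1 ≤
        ENNReal.ofReal (C * (2 : ℝ) ^ (-(σ : ℝ)) * (2 : ℝ) ^ (-((p - 1) * ((σ' : ℝ) - σ))))) ∧
      (σ' ≤ σ → ∫⁻ t, ENNReal.ofReal (env σ t * env σ' t ^ (p - 1)) ∂haar1 ≤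
        ENNReal.ofReal (C * (2 : ℝ) ^ (-(σ : ℝ)) * (1 + ((σ : ℝ) - σ')))))
    (n ρ s k : ℕ) (hs : s ≤ n) (hk : k ≤ n) :
    (∫⁻ t, ENNReal.ofReal (env (s + ρ) t * env (k + ρ) t ^ (p - 1)) ∂haar1) *
      (∫⁻ t, ENNReal.ofReal (env (n - s + ρ) t * env (n - k + ρ) t ^ (p - 1)) ∂haar1) ≤
    ENNReal.ofReal (C ^ 2 * (2 : ℝ) ^ (-((n : ℝ) + 2 * ρ)) * vv p ((s - k) + (k - s))) := by
  have c1 : (((n - s : ℕ) : ℝ)) = (n : ℝ) - s := by push_cast [Nat.cast_sub hs]; ring
  have c2 : (((n - k : ℕ) : ℝ)) = (n : ℝ) - k := by push_cast [Nat.cast_sub hk]; ring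
  have pe : (2 : ℝ) ^ (-(((s + ρ : ℕ) : ℝ))) * (2 : ℝ) ^ (-(((n - s + ρ : ℕ) : ℝ))) =
      (2 : ℝ) ^ (-((n : ℝ) + 2 * ρ)) := by
    rw [← Real.rpow_add (by norm_num)]
    congr 1
    push_cast
    rw [c1]
    ring
  rcases le_total s k with h | h
  · have h1 := (hI (s + ρ) (k + ρ)).1 (by omega)
    have h2 := (hI (n - s + ρ) (n - k + ρ)).2 (by omega)
    refine (mul_le_mul' h1 h2).trans ?_
    rw [← ENNReal.ofReal_mul (by positivity)]
    refine ENNReal.ofReal_le_ofReal (le_of_eq ?_)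
    have hD : ((s - k) + (k - s) : ℕ) = k - s := by omega
    have hDc : ((k - s : ℕ) : ℝ) = (k : ℝ) - s := by push_cast [Nat.cast_sub h]; ring
    have e1 : (2 : ℝ) ^ (-((p - 1) * ((((k + ρ : ℕ) : ℝ)) - ((s + ρ : ℕ) : ℝ)))) =
        ((2 : ℝ) ^ (-(p - 1))) ^ (k - s) := by
      rw [← Real.rpow_natCast, ← Real.rpow_mul (by norm_num), hDc]
      congr 1
      push_cast
      ring
    have e2 : (1 + ((((n - s + ρ : ℕ) : ℝ)) - ((n - k + ρ : ℕ) : ℝ))) = 1 + ((k - s : ℕ) : ℝ) := by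
      push_cast
      rw [c1, c2, hDc]
      ring
    rw [e1, e2, hD, ← pe]
    unfold vv
    ring
  · have h1 := (hI (s + ρ) (k + ρ)).2 (by omega)
    have h2 := (hI (n - s + ρ) (n - k + ρ)).1 (by omega)
    have hpos : 0 ≤ (1 + ((((s + ρ : ℕ) : ℝ)) - ((k + ρ : ℕ) : ℝ))) := by
      have : (k : ℝ) ≤ s := by exact_mod_cast h
      push_cast
      linarith
    refine (mul_le_mul' h1 h2).trans ?_
    rw [← ENNReal.ofReal_mul (by positivity)]
    refine ENNReal.ofReal_le_ofReal (le_of_eq ?_)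
    have hD : ((s - k) + (k - s) : ℕ) = s - k := by omega
    have hDc : ((s - k : ℕ) : ℝ) = (s : ℝ) - k := by push_cast [Nat.cast_sub h]; ring
    have e1 : (2 : ℝ) ^ (-((p - 1) * ((((n - k + ρ : ℕ) : ℝ)) - ((n - s + ρ : ℕ) : ℝ)))) =
        ((2 : ℝ) ^ (-(p - 1))) ^ (s - k) := by
      rw [← Real.rpow_natCast, ← Real.rpow_mul (by norm_num), hDc]
      congr 1
      push_cast
      rw [c1, c2]
      ring
    have e2 : (1 + ((((s + ρ : ℕ) : ℝ)) - ((k + ρ : ℕ) : ℝ))) = 1 + ((s - k : ℕ) : ℝ) := by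
      push_cast
      rw [hDc]
      ring
    rw [e1, e2, hD, ← pe]
    unfold vv
    ring

end OvlAux

open OvlAux

theorem st_OVL (h1 : ST_INT1) (h2 : ST_PROJ) : ST_OVL := by
  intro p hp hp2
  obtain ⟨C, hC, hI⟩ := h1 p hp hp2
  have hs := vv_summable p hp
  have hU : 0 < ∑' D, vv p D := by
    have : vv p 0 ≤ ∑' D, vv p D := hs.le_tsum 0 (fun i _ => vv_nonneg p i)
    have h0 : vv p 0 = 1 := by simp [vv]
    linarith
  refine ⟨C ^ 2 * (2 * ∑' D, vv p D), by positivity, ?_⟩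
  intro e n ρ G x₁ x₂ hG
  have step1 : ∀ x : TT (e + 2), ENNReal.ofReal
      ((∑ s ∈ G, env (s + ρ) (x 0 - x₁) * env (n - s + ρ) (x 1 - x₂)) ^ p) ≤
      ∑ s ∈ G, ∑ k ∈ G, ENNReal.ofReal
        ((env (s + ρ) (x 0 - x₁) * env (n - s + ρ) (x 1 - x₂)) *
          (env (k + ρ) (x 0 - x₁) * env (n - k + ρ) (x 1 - x₂)) ^ (p - 1)) := by
    intro x
    have hpos : ∀ s : ℕ, 0 ≤ env (s + ρ) (x 0 - x₁) * env (n - s + ρ) (x 1 - x₂) := by
      intro s
      exact (mul_pos (env_pos _ _) (env_pos _ _)).le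
    refine (ENNReal.ofReal_le_ofReal (pw G _ (fun s _ => hpos s) p hp hp2)).trans (le_of_eq ?_)
    rw [ENNReal.ofReal_sum_of_nonneg]
    · refine Finset.sum_congr rfl ?_
      intro s _
      rw [ENNReal.ofReal_sum_of_nonneg]
      intro k _
      exact mul_nonneg (hpos s) (Real.rpow_nonneg (hpos k) _)
    · intro s _
      exact Finset.sum_nonneg fun k _ => mul_nonneg (hpos s) (Real.rpow_nonneg (hpos k) _)
  have hmeas : ∀ s k : ℕ, Measurable (fun x : TT (e + 2) => ENNReal.ofReal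
        ((env (s + ρ) (x 0 - x₁) * env (n - s + ρ) (x 1 - x₂)) *
          (env (k + ρ) (x 0 - x₁) * env (n - k + ρ) (x 1 - x₂)) ^ (p - 1))) := by
    intro s k
    have a0 : Measurable (fun x : TT (e + 2) => x 0 - x₁) := Continuous.measurable (by fun_prop)
    have a1 : Measurable (fun x : TT (e + 2) => x 1 - x₂) := Continuous.measurable (by fun_prop)
    refine ENNReal.measurable_ofReal.comp ?_
    refine Measurable.mul ?_ (Measurable.pow_const ?_ _)
    · exact ((env_cont _).measurable.comp a0).mul ((env_cont _).measurable.comp a1)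
    · exact ((env_cont _).measurable.comp a0).mul ((env_cont _).measurable.comp a1)
  refine (lintegral_mono step1).trans ?_
  rw [lintegral_finsetSum _ (fun s _ => Finset.measurable_sum _ (fun k _ => hmeas s k))]
  have step2 : ∀ s ∈ G, ∫⁻ x : TT (e + 2), ∑ k ∈ G, ENNReal.ofReal
        ((env (s + ρ) (x 0 - x₁) * env (n - s + ρ) (x 1 - x₂)) *
          (env (k + ρ) (x 0 - x₁) * env (n - k + ρ) (x 1 - x₂)) ^ (p - 1)) ∂haar (e + 2) ≤
      ENNReal.ofReal (C ^ 2 * (2 : ℝ) ^ (-((n : ℝ) + 2 * ρ)) * (2 * ∑' D, vv p D)) := by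
    intro s hsG
    rw [lintegral_finsetSum _ (fun k _ => hmeas s k)]
    have : ∀ k ∈ G, ∫⁻ x : TT (e + 2), ENNReal.ofReal
        ((env (s + ρ) (x 0 - x₁) * env (n - s + ρ) (x 1 - x₂)) *
          (env (k + ρ) (x 0 - x₁) * env (n - k + ρ) (x 1 - x₂)) ^ (p - 1)) ∂haar (e + 2) ≤
        ENNReal.ofReal (C ^ 2 * (2 : ℝ) ^ (-((n : ℝ) + 2 * ρ)) * vv p ((s - k) + (k - s))) := by
      intro k hk
      rw [int_term h2]
      exact pair_bound p C hC hI n ρ s k (hG s hsG) (hG k hk)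
    refine (Finset.sum_le_sum this).trans ?_
    rw [← ENNReal.ofReal_sum_of_nonneg
      (fun k _ => mul_nonneg (by positivity) (vv_nonneg p _)), ← Finset.mul_sum]
    exact ENNReal.ofReal_le_ofReal (mul_le_mul_of_nonneg_left (vv_sum p hp G s) (by positivity))
  refine (Finset.sum_le_sum step2).trans ?_
  rw [Finset.sum_const, nsmul_eq_mul, ← ENNReal.ofReal_natCast, ← ENNReal.ofReal_mul (by positivity)]
  refine ENNReal.ofReal_le_ofReal (le_of_eq ?_)
  ring

end Pool.Agent.Helper37.SN
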